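import Mathlib

namespace Pool.Agent.Results.MP_3e19fa_lc.Cycle

/-- Utility of agent `i` under the placement `σ`: the number of types, other than the type of `i`,
occurring among agents on neighbours of the node of `i`. -/
noncomputable def util {V A T : Type} (G : SimpleGraph V) (τ : A → T) (σ : A → V) (i : A) : ℕ :=
  Set.ncard {t : T | t ≠ τ i ∧ ∃ j : A, τ j = t ∧ G.Adj (σ i) (σ j)}

/-- `σ'` arises from `σ` by an improving jump: one agent `i` moves to an empty node `v`, the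
others stay, and the utility of `i` strictly increases. -/
def ImprovingJump {V A T : Type} (G : SimpleGraph V) (τ : A → T) (σ σ' : A → V) : Prop :=
  ∃ (i : A) (v : V), v ∉ Set.range σ ∧ σ' i = v ∧ (∀ j, j ≠ i → σ' j = σ j) ∧
    util G τ σ i < util G τ σ' i

/-- An improving response cycle: assignments (injective placements) `σ 0, …, σ m = σ 0`, `m ≥ 1`,
each obtained from the previous one by an improving jump. -/
def HasIRC {V A T : Type} (G : SimpleGraph V) (τ : A → T) : Prop :=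
  ∃ (m : ℕ) (σ : ℕ → A → V), 1 ≤ m ∧ (∀ j, j ≤ m → Function.Injective (σ j)) ∧ σ m = σ 0 ∧
    ∀ j, j < m → ImprovingJump G τ (σ j) (σ (j + 1))

def edges : List (Fin 10 × Fin 10) :=
  [(0,1),(0,2),(0,3),(0,6),(0,8),(1,3),(1,4),(1,5),(1,8),(2,4),(2,6),(2,7),(3,4),(3,6),(3,8),
   (3,9),(4,5),(4,6),(4,7),(4,9),(5,6),(5,9),(6,9),(7,8),(7,9),(8,9)]

def adjB (a b : Fin 10) : Bool := decide ((a, b) ∈ edges) || decide ((b, a) ∈ edges)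

def G0 : SimpleGraph (Fin 10) where
  Adj a b := adjB a b = true
  symm := ⟨by intro a b; revert a b; decide⟩
  loopless := ⟨by intro a; revert a; decide⟩

instance : DecidableRel G0.Adj := fun a b => inferInstanceAs (Decidable (adjB a b = true))

def τ0 : Fin 8 → Fin 4 := ![0, 2, 1, 1, 3, 2, 0, 3]

def seqL : List (Fin 8 → Fin 10) :=
  [![0, 2, 3, 4, 5, 6, 7, 9], ![0, 1, 3, 4, 5, 6, 7, 9], ![8, 1, 3, 4, 5, 6, 7, 9],
   ![8, 1, 3, 4, 2, 6, 7, 9], ![8, 1, 3, 4, 2, 0, 7, 9], ![8, 1, 3, 4, 2, 0, 5, 9],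
   ![8, 1, 3, 4, 2, 0, 5, 6], ![8, 7, 3, 4, 2, 0, 5, 6], ![9, 7, 3, 4, 2, 0, 5, 6],
   ![9, 7, 3, 4, 1, 0, 5, 6], ![9, 7, 3, 4, 1, 8, 5, 6], ![9, 7, 3, 4, 1, 8, 2, 6],
   ![9, 7, 3, 4, 1, 8, 2, 0], ![9, 5, 3, 4, 1, 8, 2, 0], ![6, 5, 3, 4, 1, 8, 2, 0],
   ![6, 5, 3, 4, 7, 8, 2, 0], ![6, 5, 3, 4, 7, 9, 2, 0], ![6, 5, 3, 4, 7, 9, 1, 0],
   ![6, 5, 3, 4, 7, 9, 1, 8], ![6, 2, 3, 4, 7, 9, 1, 8], ![0, 2, 3, 4, 7, 9, 1, 8],
   ![0, 2, 3, 4, 5, 9, 1, 8], ![0, 2, 3, 4, 5, 6, 1, 8], ![0, 2, 3, 4, 5, 6, 7, 8],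
   ![0, 2, 3, 4, 5, 6, 7, 9]]

def sq (j : ℕ) : Fin 8 → Fin 10 := seqL.getD j ![0, 2, 3, 4, 5, 6, 7, 9]

def mvL : List (Fin 8) := [1, 0, 4, 5, 6, 7, 1, 0, 4, 5, 6, 7, 1, 0, 4, 5, 6, 7, 1, 0, 4, 5, 6, 7]

def mv (j : ℕ) : Fin 8 := mvL.getD j 0

def utilF (σ : Fin 8 → Fin 10) (i : Fin 8) : ℕ :=
  (Finset.univ.filter (fun t : Fin 4 => t ≠ τ0 i ∧ ∃ j : Fin 8, τ0 j = t ∧ G0.Adj (σ i) (σ j))).card

lemma util_eq (σ : Fin 8 → Fin 10) (i : Fin 8) : util G0 τ0 σ i = utilF σ i := by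
  unfold util utilF
  rw [← Set.ncard_coe_finset]
  congr 1
  ext t
  simp

lemma steps : ∀ j : Fin 24, (∀ a : Fin 8, sq j a ≠ sq (j + 1) (mv j)) ∧
    (∀ a : Fin 8, a ≠ mv j → sq (j + 1) a = sq j a) ∧
    utilF (sq j) (mv j) < utilF (sq (j + 1)) (mv j) := by
  decide +kernel

lemma injs : ∀ j : Fin 25, ∀ a b : Fin 8, sq j a = sq j b → a = b := by
  decide +kernel

lemma irc : HasIRC G0 τ0 := by
  refine ⟨24, sq, by norm_num, ?_, rfl, ?_⟩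
  · intro j hj a b hab
    exact injs ⟨j, by omega⟩ a b hab
  · intro j hj
    obtain ⟨h1, h2, h3⟩ := steps ⟨j, hj⟩
    refine ⟨mv j, sq (j + 1) (mv j), ?_, rfl, h2, ?_⟩
    · rintro ⟨a, ha⟩
      exact h1 a ha
    · rw [util_eq, util_eq]
      exact h3

theorem result : ∃ (n k : ℕ) (G : SimpleGraph (Fin (n + 2))) (τ : Fin n → Fin k),
    2 ≤ k ∧ Function.Surjective τ ∧ HasIRC G τ :=
  ⟨8, 4, G0, τ0, by norm_num, by decide, irc⟩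

end Pool.Agent.Results.MP_3e19fa_lc.Cycle
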